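import Pool.Agent.Y164.HG.Stm

/-!
# HG-EXT: Galois descent for ideals of the coordinate ring

An ideal of the coordinate ring over `L` which is stable under `Gal(L/K)` is generated by its
elements with coordinates in `K`: induction on the support of an element, as for vector spaces.
-/

set_option autoImplicit false
set_option linter.all false

open Polynomial

namespace Pool.Agent.Y500.HG

open Pool.Agent.Y713.SE

section
variable {ℓ n : ℕ} {K : Type} [Field K] (D : Dat ℓ n K) {L : Type} [Field L] [Algebra K L]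

/-- the coordinates of `a` outside `S` are zero -/
def Sup (S : Finset (Fin ℓ × ℕ)) (a : (D.base L).A) : Prop :=
  ∀ j t, (j, t) ∉ S → ((D.base L).c j a).coeff t = 0

lemma sup_erase {S : Finset (Fin ℓ × ℕ)} {a : (D.base L).A} (h : Sup D S a) {p : Fin ℓ × ℕ}
    (hp : ((D.base L).c p.1 a).coeff p.2 = 0) : Sup D (S.erase p) a := by
  intro j t hjt
  by_cases hq : (j, t) = p
  · rw [← hq] at hp
    exact hp
  · exact h j t fun hS => hjt (Finset.mem_erase.2 ⟨hq, hS⟩)

lemma sup_smul {S : Finset (Fin ℓ × ℕ)} {a : (D.base L).A} (h : Sup D S a) (x : L) :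
    Sup D S ((C x : L[X]) • a) := by
  intro j t hjt
  rw [map_smul, smul_eq_mul, coeff_C_mul, h j t hjt, mul_zero]

lemma sup_sub {S : Finset (Fin ℓ × ℕ)} {a b : (D.base L).A} (ha : Sup D S a) (hb : Sup D S b) :
    Sup D S (a - b) := by
  intro j t hjt
  rw [map_sub, coeff_sub, ha j t hjt, hb j t hjt, sub_zero]

lemma sup_mp {S : Finset (Fin ℓ × ℕ)} {a : (D.base L).A} (h : Sup D S a) (φ : L →ₐ[K] L) :
    Sup D S (D.mp φ a) := by
  intro j t hjt
  rw [D.c_mp, coeff_map, h j t hjt, map_zero]

lemma smul_mem' {I : Ideal (D.base L).A} {a : (D.base L).A} (h : a ∈ I) (g : L[X]) :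
    g • a ∈ I := by
  rw [Algebra.smul_def]
  exact I.mul_mem_left _ h

lemma exists_coord {a : (D.base L).A} (h : a ≠ 0) : ∃ p : Fin ℓ × ℕ,
    ((D.base L).c p.1 a).coeff p.2 ≠ 0 := by
  by_contra hn
  push Not at hn
  apply h
  apply (D.base L).ext_c
  intro j
  rw [map_zero]
  ext t
  rw [coeff_zero]
  exact hn (j, t)

/-- an element fixed by the Galois group comes from the base field -/
lemma exists_of_fixed [IsGalois K L] {b : (D.base L).A}
    (h : ∀ σ : L ≃ₐ[K] L, D.mp (Dat.au σ) b = b) :
    ∃ b0 : (D.base K).A, D.mp (Algebra.ofId K L) b0 = b := by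
  have h1 : ∀ j : Fin ℓ, ∃ g : K[X], g.map (algebraMap K L) = (D.base L).c j b := by
    intro j
    have h2 : (D.base L).c j b ∈ Polynomial.lifts (algebraMap K L) := by
      rw [Polynomial.lifts_iff_coeff_lifts]
      intro t
      have h3 : ∀ σ : L ≃ₐ[K] L, σ (((D.base L).c j b).coeff t) = ((D.base L).c j b).coeff t := by
        intro σ
        have h4 := congrArg (fun x => ((D.base L).c j x).coeff t) (h σ)
        simp only [D.c_mp, coeff_map] at h4
        exact h4
      exact (InfiniteGalois.mem_range_algebraMap_iff_fixed _).2 h3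
    exact (Polynomial.mem_lifts _).1 h2
  choose g hg using h1
  refine ⟨∑ j : Fin ℓ, g j • (D.base K).y ^ (j : ℕ), ?_⟩
  apply (D.base L).ext_c
  intro j
  rw [D.c_mp, (D.base K).c_sum, ← hg j]
  rfl

/-- the elements of `I` are in the ideal generated by the elements of `I` over `K` -/
lemma mem_of_sup [IsGalois K L] {I : Ideal (D.base L).A}
    (hI : ∀ σ : L ≃ₐ[K] L, D.mI (Dat.au σ) I = I) (S : Finset (Fin ℓ × ℕ)) :
    ∀ a ∈ I, Sup D S a →
      a ∈ D.mI (Algebra.ofId K L) (I.comap (D.mp (Algebra.ofId K L))) := by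
  induction S using Finset.strongInduction with
  | H S ih =>
    intro a ha hS
    set J := D.mI (Algebra.ofId K L) (I.comap (D.mp (Algebra.ofId K L))) with hJ
    by_cases hex : ∃ S' ⊂ S, ∃ b ∈ I, b ≠ 0 ∧ Sup D S' b
    · obtain ⟨S', hS', b, hb, hb0, hbS⟩ := hex
      have hbJ := ih S' hS' b hb hbS
      obtain ⟨q, hq⟩ := exists_coord D hb0
      have hqS' : q ∈ S' := by
        by_contra hn
        exact hq (hbS q.1 q.2 hn)
      have hqS : q ∈ S := hS'.1 hqS'
      have hbS2 : Sup D S b := fun j t hjt => hbS j t fun h => hjt (hS'.1 h)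
      set x : L := ((D.base L).c q.1 a).coeff q.2 / ((D.base L).c q.1 b).coeff q.2 with hx
      have h1 : a - (C x : L[X]) • b ∈ J := by
        refine ih (S.erase q) (Finset.erase_ssubset hqS) _ (I.sub_mem ha (smul_mem' D hb _)) ?_
        apply sup_erase D (sup_sub D hS (sup_smul D hbS2 x))
        rw [map_sub, map_smul, smul_eq_mul, coeff_sub, coeff_C_mul, hx, div_mul_cancel₀ _ hq,
          sub_self]
      have h2 := J.add_mem h1 (smul_mem' D hbJ (C x))
      rwa [sub_add_cancel] at h2
    · push Not at hex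
      by_cases ha0 : a = 0
      · rw [ha0]
        exact J.zero_mem
      obtain ⟨p, hp⟩ := exists_coord D ha0
      have hpS : p ∈ S := by
        by_contra hn
        exact hp (hS p.1 p.2 hn)
      set b := (C (((D.base L).c p.1 a).coeff p.2)⁻¹ : L[X]) • a with hb
      have hbI : b ∈ I := smul_mem' D ha _
      have hbS : Sup D S b := sup_smul D hS _
      have hb1 : ((D.base L).c p.1 b).coeff p.2 = 1 := by
        rw [hb, map_smul, smul_eq_mul, coeff_C_mul, inv_mul_cancel₀ hp]
      have hfix : ∀ σ : L ≃ₐ[K] L, D.mp (Dat.au σ) b = b := by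
        intro σ
        by_contra hne
        have hsub : D.mp (Dat.au σ) b - b ≠ 0 := sub_ne_zero.2 hne
        have hmI : D.mp (Dat.au σ) b ∈ I := by
          have := D.mem_mI (Dat.au σ) hbI
          rwa [hI σ] at this
        refine hex (S.erase p) (Finset.erase_ssubset hpS) _ (I.sub_mem hmI hbI) hsub ?_
        apply sup_erase D (sup_sub D (sup_mp D hbS _) hbS)
        rw [map_sub, coeff_sub, D.c_mp, coeff_map, hb1, map_one, sub_self]
      obtain ⟨b0, hb0⟩ := exists_of_fixed D hfix
      have hbJ : b ∈ J := by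
        rw [← hb0]
        refine D.mem_mI (Algebra.ofId K L) (Ideal.mem_comap.2 ?_)
        rw [hb0]
        exact hbI
      have h2 : (C (((D.base L).c p.1 a).coeff p.2) : L[X]) • b = a := by
        rw [hb, smul_smul, ← C_mul, mul_inv_cancel₀ hp, C_1, one_smul]
      rw [← h2]
      exact smul_mem' D hbJ _

end

/-- **HG-EXT** -/
theorem t : Pool.Agent.Y164.HG.S_EXT := by
  intro ℓ n K _ D L _ _ _ I hI
  refine ⟨I.comap (D.mp (Algebra.ofId K L)), le_antisymm ?_ ?_⟩
  · exact Ideal.map_comap_le
  · intro a ha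
    classical
    refine mem_of_sup D hI (Finset.univ.biUnion fun j : Fin ℓ =>
      ((D.base L).c j a).support.image fun t => (j, t)) a ha ?_
    intro j t hjt
    by_contra h
    apply hjt
    rw [Finset.mem_biUnion]
    exact ⟨j, Finset.mem_univ _, Finset.mem_image.2 ⟨t, mem_support_iff.2 h, rfl⟩⟩

end Pool.Agent.Y500.HG
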